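import Pool.Agent.H18Wi.Defs

/-!
Package P2 of the widest range (MP_b7d303_pr): the test function `g`.
-/

set_option autoImplicit false

namespace Pool.Agent.H63TC.Wi

theorem g_eq_left {w u : ℝ} (h : u ≤ w) : g w u = Real.exp (u - w) := by simp [g, h]

theorem g_eq_right {w u : ℝ} (h : w ≤ u) : g w u = 2 - Real.exp (-(u - w)) := by
  rcases eq_or_lt_of_le h with rfl | h
  · simp [g]; norm_num
  · simp [g, not_le.2 h]

theorem g_all (w : ℝ) : (∀ u, 0 ≤ g w u) ∧ (∀ u, g w u ≤ 2) ∧ Monotone (g w) := by
  have e1 : ∀ u, w ≤ u → Real.exp (-(u - w)) ≤ 1 := fun u h =>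
    Real.exp_le_one_iff.2 (by linarith)
  have e2 : ∀ u, u ≤ w → Real.exp (u - w) ≤ 1 := fun u h =>
    Real.exp_le_one_iff.2 (by linarith)
  refine ⟨?_, ?_, ?_⟩
  · intro u
    rcases le_total u w with h | h
    · rw [g_eq_left h]; exact (Real.exp_pos _).le
    · rw [g_eq_right h]; linarith [e1 u h]
  · intro u
    rcases le_total u w with h | h
    · rw [g_eq_left h]; linarith [e2 u h]
    · rw [g_eq_right h]; linarith [Real.exp_pos (-(u - w))]
  · intro u v huv
    rcases le_total v w with hv | hv
    · rw [g_eq_left hv, g_eq_left (huv.trans hv)]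
      exact Real.exp_le_exp.2 (by linarith)
    · rcases le_total u w with hu | hu
      · rw [g_eq_left hu, g_eq_right hv]
        linarith [e2 u hu, e1 v hv]
      · rw [g_eq_right hu, g_eq_right hv]
        have : Real.exp (-(v - w)) ≤ Real.exp (-(u - w)) := Real.exp_le_exp.2 (by linarith)
        linarith

theorem g_far (w u s : ℝ) (h : u ≤ w - s) (hs : 0 ≤ s) : g w u ≤ Real.exp (-s) := by
  rw [g_eq_left (by linarith)]
  exact Real.exp_le_exp.2 (by linarith)

/-- the increment from above: `g (u + L) - g u ≤ L exp (L) exp (-|u - w|)` -/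
theorem g_up (w u L : ℝ) (hL : 0 < L) :
    g w (u + L) - g w u ≤ L * Real.exp L * Real.exp (-|u - w|) := by
  have hpos : 0 < Real.exp L := Real.exp_pos L
  -- `1 - exp (-x) ≤ x` and `exp x - 1 ≤ x exp x`
  have k1 : ∀ x : ℝ, 1 - Real.exp (-x) ≤ x := fun x => by
    have := Real.add_one_le_exp (-x); linarith
  have k2 : ∀ x : ℝ, Real.exp x - 1 ≤ x * Real.exp x := fun x => by
    have h1 := k1 x
    have h2 : Real.exp x * Real.exp (-x) = 1 := by rw [← Real.exp_add]; simp
    nlinarith [Real.exp_pos x]
  rcases le_total w u with hu | hu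
  · -- both to the right
    rw [g_eq_right hu, g_eq_right (by linarith), abs_of_nonneg (by linarith)]
    have e1 : Real.exp (-(u + L - w)) = Real.exp (-(u - w)) * Real.exp (-L) := by
      rw [← Real.exp_add]; congr 1; ring
    rw [e1]
    have h1 := k1 L
    have h2 : 1 ≤ Real.exp L := Real.one_le_exp hL.le
    have h3 := Real.exp_pos (-(u - w))
    have h4 : 2 - Real.exp (-(u - w)) * Real.exp (-L) - (2 - Real.exp (-(u - w)))
        = (1 - Real.exp (-L)) * Real.exp (-(u - w)) := by ring
    rw [h4]
    refine mul_le_mul_of_nonneg_right ?_ h3.le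
    nlinarith
  · rw [abs_of_nonpos (by linarith), neg_neg]
    rcases le_total (u + L) w with huL | huL
    · rw [g_eq_left hu, g_eq_left huL]
      have e1 : Real.exp (u + L - w) = Real.exp (u - w) * Real.exp L := by
        rw [← Real.exp_add]; congr 1; ring
      rw [e1]
      have h1 := k2 L
      have h3 := Real.exp_pos (u - w)
      have h4 : Real.exp (u - w) * Real.exp L - Real.exp (u - w)
        = (Real.exp L - 1) * Real.exp (u - w) := by ring
      rw [h4]
      exact mul_le_mul_of_nonneg_right h1 h3.le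
    · rw [g_eq_left hu, g_eq_right huL]
      -- a = w - u, b = u + L - w, a + b = L
      set a : ℝ := w - u with ha
      set b : ℝ := u + L - w with hb
      have hab : a + b = L := by rw [ha, hb]; ring
      have ha0 : 0 ≤ a := by rw [ha]; linarith
      have hb0 : 0 ≤ b := by rw [hb]; linarith
      have e1 : u - w = -a := by rw [ha]; ring
      rw [e1]
      have h1 := k1 b
      have h2 := k1 a
      have h3 : Real.exp L * Real.exp (-a) = Real.exp b := by
        rw [← Real.exp_add]; congr 1; linarith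
      have h4 : 1 ≤ Real.exp b := Real.one_le_exp hb0
      have h5 : L * Real.exp L * Real.exp (-a) = L * Real.exp b := by rw [mul_assoc, h3]
      rw [h5]
      nlinarith

/-- the increment from below -/
theorem g_down (w u δ : ℝ) (hδ : 0 < δ) :
    δ * Real.exp (-δ) * Real.exp (-|u - w|) ≤ g w u - g w (u - δ) := by
  have k1 : ∀ x : ℝ, 1 - Real.exp (-x) ≤ x := fun x => by
    have := Real.add_one_le_exp (-x); linarith
  -- `x exp (-x) ≤ 1 - exp (-x)` and `x ≤ exp x - 1`
  have k2 : ∀ x : ℝ, x ≤ Real.exp x - 1 := fun x => by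
    have := Real.add_one_le_exp x; linarith
  have k3 : ∀ x : ℝ, x * Real.exp (-x) ≤ 1 - Real.exp (-x) := fun x => by
    have h1 := k2 x
    have h2 : Real.exp x * Real.exp (-x) = 1 := by rw [← Real.exp_add]; simp
    nlinarith [Real.exp_pos (-x)]
  rcases le_total u w with hu | hu
  · rw [g_eq_left hu, g_eq_left (by linarith), abs_of_nonpos (by linarith), neg_neg]
    have e1 : Real.exp (u - δ - w) = Real.exp (u - w) * Real.exp (-δ) := by
      rw [← Real.exp_add]; congr 1; ring
    rw [e1]
    have h3 := Real.exp_pos (u - w)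
    have h4 : Real.exp (u - w) - Real.exp (u - w) * Real.exp (-δ)
        = (1 - Real.exp (-δ)) * Real.exp (u - w) := by ring
    rw [h4]
    exact mul_le_mul_of_nonneg_right (k3 δ) h3.le
  · rw [abs_of_nonneg (by linarith)]
    rcases le_total w (u - δ) with hd | hd
    · rw [g_eq_right hu, g_eq_right hd]
      have e1 : Real.exp (-(u - δ - w)) = Real.exp (-(u - w)) * Real.exp δ := by
        rw [← Real.exp_add]; congr 1; ring
      rw [e1]
      have h3 := Real.exp_pos (-(u - w))
      have h4 : 2 - Real.exp (-(u - w)) - (2 - Real.exp (-(u - w)) * Real.exp δ)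
        = (Real.exp δ - 1) * Real.exp (-(u - w)) := by ring
      rw [h4]
      refine mul_le_mul_of_nonneg_right ?_ h3.le
      have h5 : Real.exp (-δ) ≤ 1 := Real.exp_le_one_iff.2 (by linarith)
      nlinarith [k2 δ]
    · rw [g_eq_right hu, g_eq_left hd]
      set a : ℝ := u - w with ha
      set b : ℝ := w - (u - δ) with hb
      have hab : a + b = δ := by rw [ha, hb]; ring
      have ha0 : 0 ≤ a := by rw [ha]; linarith
      have hb0 : 0 ≤ b := by rw [hb]; linarith
      have e1 : u - δ - w = -b := by rw [hb]; ring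
      rw [e1]
      have h1 := k3 a
      have h2 := k3 b
      -- exp(-δ) exp(-a) ≤ exp(-a), exp(-b)
      have h3 : Real.exp (-δ) * Real.exp (-a) ≤ Real.exp (-a) := by
        have : Real.exp (-δ) ≤ 1 := Real.exp_le_one_iff.2 (by linarith)
        nlinarith [Real.exp_pos (-a)]
      have h4 : Real.exp (-δ) * Real.exp (-a) ≤ Real.exp (-b) := by
        rw [← Real.exp_add]
        exact Real.exp_le_exp.2 (by linarith)
      have h5 : δ * Real.exp (-δ) * Real.exp (-a)
          = a * (Real.exp (-δ) * Real.exp (-a)) + b * (Real.exp (-δ) * Real.exp (-a)) := by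
        rw [← hab]; ring
      rw [h5]
      nlinarith

theorem g_step (w u δ L : ℝ) (hδ : 0 < δ) (hL : 0 < L) :
    g w (u + L) - g w u ≤ (L * Real.exp (L + δ) / δ) * (g w u - g w (u - δ)) := by
  have h1 := g_up w u L hL
  have h2 := g_down w u δ hδ
  have h3 : L * Real.exp L * Real.exp (-|u - w|)
      = (L * Real.exp (L + δ) / δ) * (δ * Real.exp (-δ) * Real.exp (-|u - w|)) := by
    rw [Real.exp_add]
    have h4 : Real.exp δ * Real.exp (-δ) = 1 := by rw [← Real.exp_add]; simp
    field_simp
    linear_combination (-1 : ℝ) * h4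
  rw [h3] at h1
  refine h1.trans (mul_le_mul_of_nonneg_left h2 ?_)
  positivity

theorem g_win (w u δ : ℝ) (hδ : 0 < δ) (h : w ≤ u) (h' : u < w + δ) :
    δ * Real.exp (-δ) ≤ g w u - g w (u - δ) := by
  have k2 : ∀ x : ℝ, x ≤ Real.exp x - 1 := fun x => by
    have := Real.add_one_le_exp x; linarith
  have k3 : ∀ x : ℝ, x * Real.exp (-x) ≤ 1 - Real.exp (-x) := fun x => by
    have h1 := k2 x
    have h2 : Real.exp x * Real.exp (-x) = 1 := by rw [← Real.exp_add]; simp
    nlinarith [Real.exp_pos (-x)]
  rw [g_eq_right h, g_eq_left (by linarith)]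
  set a : ℝ := u - w with ha
  set b : ℝ := w - (u - δ) with hb
  have hab : a + b = δ := by rw [ha, hb]; ring
  have ha0 : 0 ≤ a := by rw [ha]; linarith
  have hb0 : 0 ≤ b := by rw [hb]; linarith
  have e1 : u - δ - w = -b := by rw [hb]; ring
  rw [e1]
  have h1 := k3 a
  have h2 := k3 b
  have h3 : Real.exp (-δ) ≤ Real.exp (-a) := Real.exp_le_exp.2 (by linarith)
  have h4 : Real.exp (-δ) ≤ Real.exp (-b) := Real.exp_le_exp.2 (by linarith)
  have h5 : δ * Real.exp (-δ) = a * Real.exp (-δ) + b * Real.exp (-δ) := by rw [← hab]; ring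
  rw [h5]
  nlinarith

end Pool.Agent.H63TC.Wi
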