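import Pool.Agent.H18Wi.Defs

set_option autoImplicit false

open Finset

namespace Pool.Agent.H63TC.Wi

open scoped Classical in
/-- Package P5a: the large values of the kernel. -/
theorem big {ρ : ℝ} (h0 : 0 < ρ) (h1 : ρ < 1) {n : ℕ} (y : Fin n → Bool) (η : ℝ) (hη : 0 < η) :
    ∑ x ∈ univ.filter (fun x : Fin n → Bool =>
      Real.exp (n * (kap ρ + η)) < 2 ^ n * wt ρ x y), wt ρ x y ≤
      Real.exp (-(2 * η ^ 2 * n / (Real.log ((1 + ρ) / (1 - ρ))) ^ 2)) := by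
  have hρ : 0 < 1 - ρ := by linarith
  set L : ℝ := Real.log ((1 + ρ) / (1 - ρ)) with hL
  have hL0 : 0 < L := by
    apply Real.log_pos
    rw [lt_div_iff₀ hρ]; linarith
  set s : ℝ := 4 * η / L ^ 2 with hs
  have hs0 : 0 ≤ s := by positivity
  have h2 : (0 : ℝ) < 2 ^ n := by positivity
  set B : ℝ := Real.exp (n * (kap ρ + η)) with hB
  have hB0 : 0 < B := Real.exp_pos _
  have hBs : 0 < B ^ s := Real.rpow_pos_of_pos hB0 s
  have hw : ∀ x : Fin n → Bool, 0 ≤ wt ρ x y := by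
    intro x
    unfold wt
    refine Finset.prod_nonneg fun i _ => ?_
    split_ifs <;> linarith
  have hnoise : ∀ x : Fin n → Bool,
      noise ρ (fun z => if z = y then (2 : ℝ) ^ n else 0) x = 2 ^ n * wt ρ x y := by
    intro x
    unfold noise
    simp [mul_comm]
  have e1 := Dm.mom h0 h1 (fun z : Fin n → Bool => if z = y then (2 : ℝ) ^ n else 0)
    (fun z => by
      show 0 ≤ (if z = y then (2 : ℝ) ^ n else 0)
      split_ifs <;> positivity) (by simp) s hs0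
  simp only [hnoise] at e1
  have e2 : ∀ x ∈ univ.filter (fun x : Fin n → Bool => B < 2 ^ n * wt ρ x y),
      wt ρ x y ≤ (2 ^ n * wt ρ x y) ^ (1 + s) * (1 / (2 ^ n * B ^ s)) := by
    intro x hx
    have hv := (Finset.mem_filter.1 hx).2
    have hv0 : 0 < 2 ^ n * wt ρ x y := hB0.trans hv
    have h3 : B ^ s ≤ (2 ^ n * wt ρ x y) ^ s := Real.rpow_le_rpow hB0.le hv.le hs0
    rw [Real.rpow_add hv0, Real.rpow_one, mul_one_div, le_div_iff₀ (by positivity)]
    calc wt ρ x y * (2 ^ n * B ^ s) = (2 ^ n * wt ρ x y) * B ^ s := by ring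
      _ ≤ (2 ^ n * wt ρ x y) * (2 ^ n * wt ρ x y) ^ s := mul_le_mul_of_nonneg_left h3 hv0.le
  have e3 : (((1 + ρ) ^ (1 + s) + (1 - ρ) ^ (1 + s)) / 2) ^ n ≤
      Real.exp (n * (s * kap ρ + s ^ 2 * L ^ 2 / 8)) := by
    rw [Real.exp_nat_mul]
    refine pow_le_pow_left₀ ?_ (Dm.hoef h0 h1 s hs0) n
    positivity
  have e4 : B ^ s = Real.exp (n * (kap ρ + η) * s) := by
    rw [hB, ← Real.exp_mul]
  calc ∑ x ∈ univ.filter (fun x : Fin n → Bool => B < 2 ^ n * wt ρ x y), wt ρ x y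
      ≤ ∑ x ∈ univ.filter (fun x : Fin n → Bool => B < 2 ^ n * wt ρ x y),
          (2 ^ n * wt ρ x y) ^ (1 + s) * (1 / (2 ^ n * B ^ s)) := Finset.sum_le_sum e2
    _ ≤ ∑ x : Fin n → Bool, (2 ^ n * wt ρ x y) ^ (1 + s) * (1 / (2 ^ n * B ^ s)) := by
        refine Finset.sum_le_sum_of_subset_of_nonneg (Finset.subset_univ _) fun x _ _ => ?_
        have := Real.rpow_nonneg (mul_nonneg h2.le (hw x)) (1 + s)
        positivity
    _ = (∑ x : Fin n → Bool, (2 ^ n * wt ρ x y) ^ (1 + s)) * (1 / (2 ^ n * B ^ s)) := by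
        rw [Finset.sum_mul]
    _ ≤ (2 ^ n * (((1 + ρ) ^ (1 + s) + (1 - ρ) ^ (1 + s)) / 2) ^ n) * (1 / (2 ^ n * B ^ s)) :=
        mul_le_mul_of_nonneg_right e1 (by positivity)
    _ ≤ (2 ^ n * Real.exp (n * (s * kap ρ + s ^ 2 * L ^ 2 / 8))) * (1 / (2 ^ n * B ^ s)) :=
        mul_le_mul_of_nonneg_right (mul_le_mul_of_nonneg_left e3 h2.le) (by positivity)
    _ = Real.exp (n * (s * kap ρ + s ^ 2 * L ^ 2 / 8)) / B ^ s := by
        field_simp
    _ = Real.exp (-(2 * η ^ 2 * n / L ^ 2)) := by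
        rw [e4, ← Real.exp_sub]
        congr 1
        rw [hs]
        field_simp
        ring

end Pool.Agent.H63TC.Wi
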