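import Pool.Agent.H18Wi.Defs
import Pool.Agent.H63TC.CdA
import Pool.Agent.H18Wi.Big

set_option autoImplicit false

open Finset

namespace Pool.Agent.H63TC.Wi

open scoped Classical in
/-- Package P5b. -/
theorem pair {ρ : ℝ} (h0 : 0 < ρ) (h1 : ρ < 1) {n : ℕ} (f : (Fin n → Bool) → ℝ)
    (hf : ∀ x, 0 ≤ f x) (hm : ∑ x, f x = 2 ^ n) (η ε : ℝ) (hη : 0 < η) (hε : 0 < ε) :
    ∑ y, f y * ∑ x ∈ univ.filter (fun x : Fin n → Bool =>
      Real.exp (n * (kap ρ - 2 * η)) ≤ noise ρ f x), wt ρ x y * (off ρ f (ε * n) x y / noise ρ f x) ≤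
      2 ^ n * (Real.exp (3 * η * n) * (1 - ρ ^ 2) ^ (ε * n / 2) +
        2 * Real.exp (-(2 * η ^ 2 * n / (Real.log ((1 + ρ) / (1 - ρ))) ^ 2))) := by
  have hρ : 0 < 1 - ρ := by linarith
  have hρ2 : 0 < 1 - ρ ^ 2 := by nlinarith
  have hρ2' : 1 - ρ ^ 2 ≤ 1 := by nlinarith
  have h2 : (0 : ℝ) < 2 ^ n := by positivity
  have hbig := fun y : Fin n → Bool => big h0 h1 y η hη
  set T0 : ℝ := Real.exp (n * (kap ρ - 2 * η)) with hT0
  have hT0p : 0 < T0 := Real.exp_pos _
  set B0 : ℝ := Real.exp (n * (kap ρ + η)) with hB0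
  have hB0p : 0 < B0 := Real.exp_pos _
  set E : ℝ := Real.exp (-(2 * η ^ 2 * n / (Real.log ((1 + ρ) / (1 - ρ))) ^ 2)) with hE
  have hw : ∀ x y : Fin n → Bool, 0 ≤ wt ρ x y := by
    intro x y
    unfold wt
    refine Finset.prod_nonneg fun i _ => ?_
    split_ifs <;> linarith
  set X := univ.filter (fun x : Fin n → Bool => T0 ≤ noise ρ f x) with hX
  have hTp : ∀ x ∈ X, 0 < noise ρ f x := fun x hx => hT0p.trans_le (Finset.mem_filter.1 hx).2
  -- the three terms
  let A : (Fin n → Bool) → (Fin n → Bool) → (Fin n → Bool) → ℝ := fun x y z =>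
    (B0 / 2 ^ n / T0) * (if ε * n < (hammingDist z y : ℝ) then
      f y * f z * Real.sqrt (wt ρ x y * wt ρ x z) else 0)
  let C : (Fin n → Bool) → (Fin n → Bool) → ℝ := fun x y =>
    if B0 < 2 ^ n * wt ρ x y then f y * wt ρ x y else 0
  have hC0 : ∀ x y, 0 ≤ C x y := by
    intro x y
    show 0 ≤ (if B0 < 2 ^ n * wt ρ x y then f y * wt ρ x y else 0)
    split_ifs
    · exact mul_nonneg (hf y) (hw x y)
    · exact le_rfl
  have hA0 : ∀ x y z, 0 ≤ A x y z := by
    intro x y z
    refine mul_nonneg (by positivity) ?_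
    split_ifs
    · exact mul_nonneg (mul_nonneg (hf y) (hf z)) (Real.sqrt_nonneg _)
    · exact le_rfl
  have key : ∀ x ∈ X, ∀ y z : Fin n → Bool,
      (if ε * n < (hammingDist z y : ℝ) then f y * (wt ρ x y * (wt ρ x z * f z / noise ρ f x))
        else 0) ≤
      A x y z + C x y * (wt ρ x z * f z / noise ρ f x) + C x z * (wt ρ x y * f y / noise ρ f x) := by
    intro x hx y z
    have hT := hTp x hx
    have hz0 : 0 ≤ wt ρ x z * f z / noise ρ f x := div_nonneg (mul_nonneg (hw x z) (hf z)) hT.le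
    have hy0 : 0 ≤ wt ρ x y * f y / noise ρ f x := div_nonneg (mul_nonneg (hw x y) (hf y)) hT.le
    have n1 := hA0 x y z
    have n2 := mul_nonneg (hC0 x y) hz0
    have n3 := mul_nonneg (hC0 x z) hy0
    by_cases hd : ε * n < (hammingDist z y : ℝ)
    · rw [if_pos hd]
      by_cases hy : B0 < 2 ^ n * wt ρ x y
      · have e : C x y = f y * wt ρ x y := if_pos hy
        rw [e] at n2 ⊢
        have e2 : f y * (wt ρ x y * (wt ρ x z * f z / noise ρ f x)) =
            f y * wt ρ x y * (wt ρ x z * f z / noise ρ f x) := by ring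
        rw [e2]
        linarith
      · by_cases hz : B0 < 2 ^ n * wt ρ x z
        · have e : C x z = f z * wt ρ x z := if_pos hz
          rw [e] at n3 ⊢
          have e2 : f y * (wt ρ x y * (wt ρ x z * f z / noise ρ f x)) =
              f z * wt ρ x z * (wt ρ x y * f y / noise ρ f x) := by ring
          rw [e2]
          linarith
        · have hy' : wt ρ x y ≤ B0 / 2 ^ n := by
            rw [le_div_iff₀ h2]
            linarith [not_lt.1 hy]
          have hz' : wt ρ x z ≤ B0 / 2 ^ n := by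
            rw [le_div_iff₀ h2]
            linarith [not_lt.1 hz]
          have hB : 0 ≤ B0 / 2 ^ n := by positivity
          have hs : Real.sqrt (wt ρ x y * wt ρ x z) ≤ B0 / 2 ^ n := by
            rw [Real.sqrt_le_left hB, sq]
            exact mul_le_mul hy' hz' (hw x z) hB
          have hp : wt ρ x y * wt ρ x z ≤ B0 / 2 ^ n * Real.sqrt (wt ρ x y * wt ρ x z) := by
            calc wt ρ x y * wt ρ x z = Real.sqrt (wt ρ x y * wt ρ x z) *
                  Real.sqrt (wt ρ x y * wt ρ x z) :=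
                  (Real.mul_self_sqrt (mul_nonneg (hw x y) (hw x z))).symm
              _ ≤ _ := mul_le_mul_of_nonneg_right hs (Real.sqrt_nonneg _)
          have eA : A x y z = (B0 / 2 ^ n / T0) * (f y * f z *
              Real.sqrt (wt ρ x y * wt ρ x z)) := by
            show (B0 / 2 ^ n / T0) * (if ε * n < (hammingDist z y : ℝ) then _ else _) = _
            rw [if_pos hd]
          have e3 : f y * (wt ρ x y * (wt ρ x z * f z / noise ρ f x)) ≤ A x y z := by
            rw [eA]
            calc f y * (wt ρ x y * (wt ρ x z * f z / noise ρ f x)) =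
                  (f y * f z) * (wt ρ x y * wt ρ x z) / noise ρ f x := by ring
              _ ≤ (f y * f z) * (B0 / 2 ^ n * Real.sqrt (wt ρ x y * wt ρ x z)) / noise ρ f x :=
                  div_le_div_of_nonneg_right
                    (mul_le_mul_of_nonneg_left hp (mul_nonneg (hf y) (hf z))) hT.le
              _ ≤ (f y * f z) * (B0 / 2 ^ n * Real.sqrt (wt ρ x y * wt ρ x z)) / T0 := by
                  refine div_le_div_of_nonneg_left ?_ hT0p (Finset.mem_filter.1 hx).2
                  exact mul_nonneg (mul_nonneg (hf y) (hf z))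
                    (mul_nonneg hB (Real.sqrt_nonneg _))
              _ = _ := by ring
          linarith
    · rw [if_neg hd]
      linarith
  -- rewriting the left side
  have hL : ∑ y, f y * ∑ x ∈ X, wt ρ x y * (off ρ f (ε * n) x y / noise ρ f x) =
      ∑ x ∈ X, ∑ y, ∑ z, (if ε * n < (hammingDist z y : ℝ) then
        f y * (wt ρ x y * (wt ρ x z * f z / noise ρ f x)) else 0) := by
    simp_rw [Finset.mul_sum]
    rw [Finset.sum_comm]
    refine Finset.sum_congr rfl fun x _ => Finset.sum_congr rfl fun y _ => ?_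
    rw [← Finset.sum_filter]
    unfold off
    rw [Finset.sum_div, Finset.mul_sum, Finset.mul_sum]
  have hone : ∀ x ∈ X, ∑ z, wt ρ x z * f z / noise ρ f x = 1 := by
    intro x hx
    rw [← Finset.sum_div]
    exact div_self (hTp x hx).ne'
  -- the sum of C
  have hCs : ∑ x ∈ X, ∑ y, C x y ≤ 2 ^ n * E := by
    calc ∑ x ∈ X, ∑ y, C x y ≤ ∑ x, ∑ y, C x y :=
          Finset.sum_le_sum_of_subset_of_nonneg (Finset.subset_univ _) fun x _ _ =>
            Finset.sum_nonneg fun y _ => hC0 x y
      _ = ∑ y, ∑ x, C x y := Finset.sum_comm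
      _ ≤ ∑ y, f y * E := by
          refine Finset.sum_le_sum fun y _ => ?_
          calc ∑ x, C x y = ∑ x ∈ univ.filter (fun x : Fin n → Bool =>
                B0 < 2 ^ n * wt ρ x y), f y * wt ρ x y := (Finset.sum_filter _ _).symm
            _ = f y * ∑ x ∈ univ.filter (fun x : Fin n → Bool =>
                B0 < 2 ^ n * wt ρ x y), wt ρ x y := (Finset.mul_sum _ _ _).symm
            _ ≤ f y * E := mul_le_mul_of_nonneg_left (hbig y) (hf y)
      _ = 2 ^ n * E := by rw [← Finset.sum_mul, hm]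
  -- the sum of A
  have hAs : ∑ x ∈ X, ∑ y, ∑ z, A x y z ≤
      2 ^ n * (Real.exp (3 * η * n) * (1 - ρ ^ 2) ^ (ε * n / 2)) := by
    calc ∑ x ∈ X, ∑ y, ∑ z, A x y z ≤ ∑ x, ∑ y, ∑ z, A x y z :=
          Finset.sum_le_sum_of_subset_of_nonneg (Finset.subset_univ _) fun x _ _ =>
            Finset.sum_nonneg fun y _ => Finset.sum_nonneg fun z _ => hA0 x y z
      _ = ∑ y, ∑ z, ∑ x, A x y z := by
          rw [Finset.sum_comm]
          exact Finset.sum_congr rfl fun y _ => Finset.sum_comm
      _ ≤ ∑ y, ∑ z, (B0 / 2 ^ n / T0) * (f y * f z * (1 - ρ ^ 2) ^ (ε * n / 2)) := by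
          refine Finset.sum_le_sum fun y _ => Finset.sum_le_sum fun z _ => ?_
          show ∑ x : Fin n → Bool, (B0 / 2 ^ n / T0) * (if ε * n < (hammingDist z y : ℝ) then
            f y * f z * Real.sqrt (wt ρ x y * wt ρ x z) else 0) ≤ _
          rw [← Finset.mul_sum]
          refine mul_le_mul_of_nonneg_left ?_ (by positivity)
          by_cases hd : ε * n < (hammingDist z y : ℝ)
          · simp only [if_pos hd]
            rw [← Finset.mul_sum, Cd.affinity h0 h1]
            refine mul_le_mul_of_nonneg_left ?_ (mul_nonneg (hf y) (hf z))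
            rw [hammingDist_comm, Real.sqrt_eq_rpow, ← Real.rpow_natCast, ← Real.rpow_mul hρ2.le]
            apply Real.rpow_le_rpow_of_exponent_ge hρ2 hρ2'
            linarith
          · simp only [if_neg hd, Finset.sum_const_zero]
            exact mul_nonneg (mul_nonneg (hf y) (hf z)) (Real.rpow_nonneg hρ2.le _)
      _ = (B0 / 2 ^ n / T0) * (1 - ρ ^ 2) ^ (ε * n / 2) * ((∑ y, f y) * ∑ z, f z) := by
          rw [Finset.sum_mul_sum, Finset.mul_sum]
          refine Finset.sum_congr rfl fun y _ => ?_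
          rw [Finset.mul_sum]
          exact Finset.sum_congr rfl fun z _ => by ring
      _ = 2 ^ n * (B0 / T0 * (1 - ρ ^ 2) ^ (ε * n / 2)) := by
          rw [hm]
          field_simp
      _ = _ := by
          rw [hB0, hT0, ← Real.exp_sub]
          have e : (n : ℝ) * (kap ρ + η) - n * (kap ρ - 2 * η) = 3 * η * n := by ring
          rw [e]
  rw [hL]
  calc ∑ x ∈ X, ∑ y, ∑ z, (if ε * n < (hammingDist z y : ℝ) then
        f y * (wt ρ x y * (wt ρ x z * f z / noise ρ f x)) else 0)
      ≤ ∑ x ∈ X, ∑ y, ∑ z, (A x y z + C x y * (wt ρ x z * f z / noise ρ f x) +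
          C x z * (wt ρ x y * f y / noise ρ f x)) :=
        Finset.sum_le_sum fun x hx => Finset.sum_le_sum fun y _ => Finset.sum_le_sum fun z _ =>
          key x hx y z
    _ = ∑ x ∈ X, ((∑ y, ∑ z, A x y z) + (∑ y, C x y) + ∑ z, C x z) := by
        refine Finset.sum_congr rfl fun x hx => ?_
        simp_rw [Finset.sum_add_distrib]
        congr 1
        · congr 1
          refine Finset.sum_congr rfl fun y _ => ?_
          rw [← Finset.mul_sum, hone x hx, mul_one]
        · rw [Finset.sum_comm]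
          refine Finset.sum_congr rfl fun z _ => ?_
          rw [← Finset.mul_sum, hone x hx, mul_one]
    _ = (∑ x ∈ X, ∑ y, ∑ z, A x y z) + (∑ x ∈ X, ∑ y, C x y) + ∑ x ∈ X, ∑ z, C x z := by
        rw [Finset.sum_add_distrib, Finset.sum_add_distrib]
    _ ≤ 2 ^ n * (Real.exp (3 * η * n) * (1 - ρ ^ 2) ^ (ε * n / 2)) + 2 ^ n * E + 2 ^ n * E :=
        add_le_add (add_le_add hAs hCs) hCs
    _ = _ := by ring

end Pool.Agent.H63TC.Wi
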