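import Pool.Agent.H18Wi.Defs

set_option autoImplicit false

open Finset

namespace Pool.Agent.H21Wi

open Pool.Agent.H63TC Pool.Agent.H63TC.Wi

theorem off_ge' {ρ : ℝ} (h0 : 0 < ρ) (h1 : ρ < 1) {n : ℕ} (hn : 0 < n)
    (f : (Fin n → Bool) → ℝ) (hf : ∀ x, 0 ≤ f x) (x y : Fin n → Bool)
    (hr : ∀ i, x i = y i → noise ρ f x < (1 + ρ) * noise ρ f (Wi.flip x i) →
      (1 - ρ) / 4 * noise ρ f x ≤ ∑ z ∈ univ.filter (fun z : Fin n → Bool => z i ≠ y i),
        wt ρ x z * f z)
    (e : ℝ) (he : 0 < e) (h : e * n < ((exc ρ f x y).card : ℝ)) :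
    e * (1 - ρ) / 8 * noise ρ f x ≤ off ρ f (e * (1 - ρ) / 8 * n) x y := by
  classical
  have hρ : 0 < 1 - ρ := by linarith
  have hn' : (0 : ℝ) < n := by exact_mod_cast hn
  have hw : ∀ z, 0 ≤ wt ρ x z * f z := by
    intro z
    refine mul_nonneg ?_ (hf z)
    unfold wt
    refine Finset.prod_nonneg fun i _ => ?_
    split_ifs <;> linarith
  have hT : noise ρ f x = ∑ z, wt ρ x z * f z := rfl
  have hT0 : 0 ≤ noise ρ f x := by
    rw [hT]; exact Finset.sum_nonneg fun z _ => hw z
  set T := noise ρ f x with hTdef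
  set ε : ℝ := e * (1 - ρ) / 8 with hε
  have hε0 : 0 < ε := by positivity
  have a1 : ((exc ρ f x y).card : ℝ) * ((1 - ρ) / 4 * T) ≤
      ∑ i ∈ exc ρ f x y, ∑ z ∈ univ.filter (fun z : Fin n → Bool => z i ≠ y i),
        wt ρ x z * f z := by
    rw [← nsmul_eq_mul, ← Finset.sum_const]
    refine Finset.sum_le_sum fun i hi => ?_
    unfold exc at hi
    have hi' := (Finset.mem_filter.1 hi).2
    exact hr i hi'.1 hi'.2
  have a2 : ∑ i ∈ exc ρ f x y, ∑ z ∈ univ.filter (fun z : Fin n → Bool => z i ≠ y i),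
        wt ρ x z * f z ≤ ∑ z, wt ρ x z * f z * (hammingDist z y : ℝ) := by
    have e1 : ∀ i ∈ exc ρ f x y, ∑ z ∈ univ.filter (fun z : Fin n → Bool => z i ≠ y i),
        wt ρ x z * f z = ∑ z, if z i ≠ y i then wt ρ x z * f z else 0 := by
      intro i _
      rw [Finset.sum_filter]
    rw [Finset.sum_congr rfl e1, Finset.sum_comm]
    refine Finset.sum_le_sum fun z _ => ?_
    rw [← Finset.sum_filter, Finset.sum_const, nsmul_eq_mul, mul_comm]
    refine mul_le_mul_of_nonneg_left ?_ (hw z)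
    have : ((exc ρ f x y).filter (fun i => z i ≠ y i)).card ≤ hammingDist z y := by
      unfold hammingDist
      exact Finset.card_le_card (Finset.filter_subset_filter _ (Finset.subset_univ _))
    exact_mod_cast this
  have a3 : ∑ z, wt ρ x z * f z * (hammingDist z y : ℝ) ≤
      ε * n * T + n * off ρ f (ε * n) x y := by
    have e2 : off ρ f (ε * n) x y =
        ∑ z, if ε * n < (hammingDist z y : ℝ) then wt ρ x z * f z else 0 := by
      unfold off
      rw [Finset.sum_filter]
    rw [e2, hT, Finset.mul_sum, Finset.mul_sum, ← Finset.sum_add_distrib]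
    refine Finset.sum_le_sum fun z _ => ?_
    have hd : (hammingDist z y : ℝ) ≤ n := by
      have := hammingDist_le_card_fintype (x := z) (y := y)
      rw [Fintype.card_fin] at this
      exact_mod_cast this
    split_ifs with hc
    · have := mul_le_mul_of_nonneg_left hd (hw z)
      have h3 : 0 ≤ ε * n * (wt ρ x z * f z) := mul_nonneg (by positivity) (hw z)
      nlinarith
    · have := mul_le_mul_of_nonneg_left (not_lt.1 hc) (hw z)
      nlinarith
  have a4 : e * n * ((1 - ρ) / 4 * T) ≤ ((exc ρ f x y).card : ℝ) * ((1 - ρ) / 4 * T) :=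
    mul_le_mul_of_nonneg_right h.le (by positivity)
  have a5 : e * n * ((1 - ρ) / 4 * T) = 2 * (n * (ε * T)) := by
    rw [hε]; ring
  have a6 : n * (ε * T) ≤ n * off ρ f (ε * n) x y := by nlinarith
  exact le_of_mul_le_mul_left a6 hn'

end Pool.Agent.H21Wi
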