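import Pool.Agent.H18Wi.Star
import Pool.Agent.H18Wi.Off

set_option autoImplicit false

open Finset

namespace Pool.Agent.H21Wi

open Pool.Agent.H63TC Pool.Agent.H63TC.Wi

theorem wt_pos {ρ : ℝ} (h0 : 0 < ρ) (h1 : ρ < 1) {n : ℕ} (x y : Fin n → Bool) :
    0 < wt ρ x y := by
  unfold wt
  refine Finset.prod_pos fun i _ => ?_
  split_ifs <;> linarith

theorem noise_pos {ρ : ℝ} (h0 : 0 < ρ) (h1 : ρ < 1) {n : ℕ} (f : (Fin n → Bool) → ℝ)
    (hf : ∀ x, 0 ≤ f x) (hm : ∑ x, f x = 2 ^ n) (x : Fin n → Bool) : 0 < noise ρ f x := by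
  have h2 : (0 : ℝ) < ∑ x, f x := by rw [hm]; positivity
  obtain ⟨z, _, hz⟩ := Finset.exists_lt_of_sum_lt (s := univ) (f := fun _ : Fin n → Bool => (0 : ℝ))
    (g := f) (by simpa using h2)
  unfold noise
  refine Finset.sum_pos' (fun w _ => mul_nonneg (wt_pos h0 h1 x w).le (hf w)) ⟨z, mem_univ z, ?_⟩
  exact mul_pos (wt_pos h0 h1 x z) hz

theorem wt_flip_eq {ρ : ℝ} (h0 : 0 < ρ) (h1 : ρ < 1) {n : ℕ} (x z : Fin n → Bool) (i : Fin n)
    (h : z i = x i) : (1 + ρ) * wt ρ (Wi.flip x i) z = (1 - ρ) * wt ρ x z := by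
  have h' : Wi.flip x i i ≠ z i := by
    intro hc
    exact ((flip_self x z i).1 hc) h.symm
  have e := wt_flip h1 (Wi.flip x i) z i h'
  rw [flip_flip] at e
  have h3 : (1 - ρ) ≠ 0 := by linarith
  rw [e]
  field_simp

theorem noise_flip {ρ : ℝ} (h0 : 0 < ρ) (h1 : ρ < 1) {n : ℕ} (f : (Fin n → Bool) → ℝ)
    (x : Fin n → Bool) (i : Fin n) :
    (1 + ρ) * noise ρ f (Wi.flip x i) = (1 - ρ) * noise ρ f x +
      4 * ρ / (1 - ρ) * ∑ z ∈ univ.filter (fun z : Fin n → Bool => z i ≠ x i),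
        wt ρ x z * f z := by
  have h3 : (1 - ρ) ≠ 0 := by linarith
  unfold noise
  rw [Finset.sum_filter, Finset.mul_sum, Finset.mul_sum, Finset.mul_sum,
    ← Finset.sum_add_distrib]
  refine Finset.sum_congr rfl fun z _ => ?_
  by_cases h : z i = x i
  · rw [if_neg (not_not.2 h), mul_zero, add_zero, ← mul_assoc, wt_flip_eq h0 h1 x z i h, mul_assoc]
  · rw [if_pos h, wt_flip h1 x z i (fun hc => h hc.symm)]
    field_simp
    ring

theorem ratio_exc {ρ : ℝ} (h0 : 0 < ρ) (h1 : ρ < 1) {n : ℕ} (f : (Fin n → Bool) → ℝ)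
    (hf : ∀ x, 0 ≤ f x) (x y : Fin n → Bool) (i : Fin n) (hi : x i = y i)
    (h : noise ρ f x < (1 + ρ) * noise ρ f (Wi.flip x i)) :
    (1 - ρ) / 4 * noise ρ f x ≤ ∑ z ∈ univ.filter (fun z : Fin n → Bool => z i ≠ y i),
      wt ρ x z * f z := by
  rw [noise_flip h0 h1 f x i, hi] at h
  set m := ∑ z ∈ univ.filter (fun z : Fin n → Bool => z i ≠ y i), wt ρ x z * f z
  set T := noise ρ f x
  have h3 : 0 < 1 - ρ := by linarith
  have h4 : ρ * T < 4 * ρ / (1 - ρ) * m := by linarith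
  have h5 : 4 * ρ / (1 - ρ) * m = ρ * (4 / (1 - ρ) * m) := by ring
  rw [h5] at h4
  have h6 : T < 4 / (1 - ρ) * m := lt_of_mul_lt_mul_left h4 h0.le
  have h7 : (1 - ρ) / 4 * T < (1 - ρ) / 4 * (4 / (1 - ρ) * m) :=
    mul_lt_mul_of_pos_left h6 (by positivity)
  have h8 : (1 - ρ) / 4 * (4 / (1 - ρ) * m) = m := by
    field_simp
  linarith

theorem ratio_le {ρ : ℝ} (h0 : 0 < ρ) (h1 : ρ < 1) {n : ℕ} (f : (Fin n → Bool) → ℝ)
    (hf : ∀ x, 0 ≤ f x) (x : Fin n → Bool) (i : Fin n) :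
    noise ρ f (Wi.flip x i) ≤ (1 + ρ) / (1 - ρ) * noise ρ f x := by
  have h3 : 0 < 1 - ρ := by linarith
  have hr : 1 ≤ (1 + ρ) / (1 - ρ) := by
    rw [le_div_iff₀ h3]; linarith
  unfold noise
  rw [Finset.mul_sum]
  refine Finset.sum_le_sum fun z _ => ?_
  rw [← mul_assoc]
  refine mul_le_mul_of_nonneg_right ?_ (hf z)
  have hw := wt_pos h0 h1 x z
  by_cases h : z i = x i
  · have e := wt_flip_eq h0 h1 x z i h
    have hw' := wt_pos h0 h1 (Wi.flip x i) z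
    have h4 : wt ρ (Wi.flip x i) z ≤ wt ρ x z := by
      have : (1 + ρ) * wt ρ (Wi.flip x i) z ≤ (1 + ρ) * wt ρ x z := by nlinarith
      exact le_of_mul_le_mul_left this (by linarith)
    nlinarith
  · rw [wt_flip h1 x z i (fun hc => h hc.symm)]

theorem off_ge {ρ : ℝ} (h0 : 0 < ρ) (h1 : ρ < 1) {n : ℕ} (hn : 0 < n) (f : (Fin n → Bool) → ℝ)
    (hf : ∀ x, 0 ≤ f x) (x y : Fin n → Bool) (e : ℝ) (he : 0 < e)
    (h : e * n < ((exc ρ f x y).card : ℝ)) :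
    e * (1 - ρ) / 8 * noise ρ f x ≤ off ρ f (e * (1 - ρ) / 8 * n) x y :=
  off_ge' h0 h1 hn f hf x y (fun i hi h' => ratio_exc h0 h1 f hf x y i hi h') e he h

end Pool.Agent.H21Wi
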