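import Pool.Agent.H18Wi.Cheb
import Pool.Agent.H18Wi.Ratio
import Pool.Agent.H18Wi.Gfun
import Pool.Agent.H18Wi.Pair

/-! Assembly of the sharp bound beyond the critical dimension. -/

set_option autoImplicit false

open Finset

namespace Pool.Agent.H18Wi

open Pool.Agent.H63TC Pool.Agent.H63TC.Wi
open Pool.Agent.H21Wi (star cheb noise_pos ratio_le off_ge)

theorem wt_nonneg {ρ : ℝ} (h0 : 0 < ρ) (h1 : ρ < 1) {n : ℕ} (x y : Fin n → Bool) :
    0 ≤ wt ρ x y := by
  unfold wt
  refine Finset.prod_nonneg fun i _ => ?_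
  split_ifs <;> linarith

theorem agree_card {n : ℕ} (x y : Fin n → Bool) :
    ((univ.filter fun i => x i = y i).card : ℝ) = n - (hammingDist x y : ℝ) := by
  have h := Finset.card_filter_add_card_filter_not (s := (univ : Finset (Fin n)))
    (fun i => x i = y i)
  have h2 : hammingDist x y = (univ.filter fun i => ¬ x i = y i).card := rfl
  rw [← h2] at h
  simp only [Finset.card_univ, Fintype.card_fin] at h
  have h3 : (((univ.filter fun i => x i = y i).card + hammingDist x y : ℕ) : ℝ) = (n : ℝ) := by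
    exact_mod_cast h
  push_cast at h3
  linarith

theorem wt_sum {ρ : ℝ} {n : ℕ} (y : Fin n → Bool) : ∑ x, wt ρ x y = 1 := by
  unfold wt
  have h := Finset.prod_univ_sum (fun _ : Fin n => (univ : Finset Bool))
    (fun i b => if b = y i then (1 + ρ) / 2 else (1 - ρ) / 2)
  rw [Fintype.piFinset_univ] at h
  rw [← h]
  apply prod_eq_one
  intro i _
  cases y i <;> simp [Fintype.sum_bool] <;> ring

open scoped Classical in
/-- the inner sum -/
theorem inner_le {ρ : ℝ} (h0 : 0 < ρ) (h1 : ρ < 1) {n : ℕ} (f : (Fin n → Bool) → ℝ)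
    (hf : ∀ x, 0 ≤ f x) (hm : ∑ x, f x = 2 ^ n) (y : Fin n → Bool) (w : ℝ) (x : Fin n → Bool) :
    ∑ i ∈ univ.filter (fun i => x i = y i),
      (g w (Real.log (noise ρ f (Wi.flip x i))) - g w (Real.log (noise ρ f x))) ≤
    (-(n - (hammingDist x y : ℝ)) + (1 + Real.log ((1 + ρ) / (1 - ρ)) *
      Real.exp (Real.log ((1 + ρ) / (1 - ρ)) + Real.log (1 + ρ)) / Real.log (1 + ρ)) *
      ((exc ρ f x y).card : ℝ)) *
      (g w (Real.log (noise ρ f x)) - g w (Real.log (noise ρ f x) - Real.log (1 + ρ))) := by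
  set δ := Real.log (1 + ρ) with hδ
  set L := Real.log ((1 + ρ) / (1 - ρ)) with hL
  have hδ0 : 0 < δ := Real.log_pos (by linarith)
  have hr : 0 < 1 - ρ := by linarith
  have hL0 : 0 < L := by
    apply Real.log_pos
    rw [lt_div_iff₀ hr]; linarith
  set K := L * Real.exp (L + δ) / δ with hK
  have hK0 : 0 < K := by positivity
  obtain ⟨g0, g2, gm⟩ := g_all w
  set W := Real.log (noise ρ f x) with hW
  set D := g w W - g w (W - δ) with hD
  have hD0 : 0 ≤ D := by
    have := gm (show W - δ ≤ W by linarith)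
    linarith
  have hnx := noise_pos h0 h1 f hf hm x
  have key : ∀ i ∈ univ.filter (fun i => x i = y i),
      g w (Real.log (noise ρ f (Wi.flip x i))) - g w W ≤
        -D + (if i ∈ exc ρ f x y then (1 + K) * D else 0) := by
    intro i hi
    have hxy : x i = y i := (mem_filter.1 hi).2
    have hni := noise_pos h0 h1 f hf hm (Wi.flip x i)
    by_cases hie : i ∈ exc ρ f x y
    · rw [if_pos hie]
      have e1 : Real.log (noise ρ f (Wi.flip x i)) ≤ W + L := by
        rw [hW, hL, add_comm, ← Real.log_mul (by positivity) hnx.ne']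
        exact Real.log_le_log hni (ratio_le h0 h1 f hf x i)
      have e2 := gm e1
      have e3 := g_step w W δ L hδ0 hL0
      rw [← hK, ← hD] at e3
      linarith
    · rw [if_neg hie, add_zero]
      have e0 : (1 + ρ) * noise ρ f (Wi.flip x i) ≤ noise ρ f x := by
        by_contra hlt
        push Not at hlt
        apply hie
        unfold exc
        exact mem_filter.2 ⟨mem_univ _, hxy, hlt⟩
      have e1 : Real.log (noise ρ f (Wi.flip x i)) ≤ W - δ := by
        have e2 : δ + Real.log (noise ρ f (Wi.flip x i)) ≤ W := by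
          rw [hδ, ← Real.log_mul (by positivity) hni.ne', hW]
          exact Real.log_le_log (by positivity) e0
        linarith
      have e2 := gm e1
      linarith
  have hsub : (univ.filter fun i => x i = y i).filter (fun i => i ∈ exc ρ f x y) = exc ρ f x y := by
    ext i
    simp only [mem_filter, mem_univ, true_and]
    constructor
    · exact fun h => h.2
    · intro h
      refine ⟨?_, h⟩
      unfold exc at h
      exact (mem_filter.1 h).2.1
  calc ∑ i ∈ univ.filter (fun i => x i = y i), (g w (Real.log (noise ρ f (Wi.flip x i))) - g w W)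
      ≤ ∑ i ∈ univ.filter (fun i => x i = y i),
        (-D + (if i ∈ exc ρ f x y then (1 + K) * D else 0)) := sum_le_sum key
    _ = (-(n - (hammingDist x y : ℝ)) + (1 + K) * ((exc ρ f x y).card : ℝ)) * D := by
        rw [sum_add_distrib, sum_const, nsmul_eq_mul, agree_card, ← sum_filter, hsub, sum_const,
          nsmul_eq_mul]
        ring

open scoped Classical in
/-- the window bound for a fixed `y` -/
theorem winy {ρ : ℝ} (h0 : 0 < ρ) (h1 : ρ < 1) {n : ℕ} (hn : 0 < n) (f : (Fin n → Bool) → ℝ)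
    (hf : ∀ x, 0 ≤ f x) (hm : ∑ x, f x = 2 ^ n) (y : Fin n → Bool) (w s e δ K : ℝ) (hs : 0 ≤ s)
    (he : 0 < e) (hδ : δ = Real.log (1 + ρ))
    (hK : K = Real.log ((1 + ρ) / (1 - ρ)) * Real.exp (Real.log ((1 + ρ) / (1 - ρ)) + δ) / δ)
    (heK : (1 + K) * e ≤ (1 + ρ) / 8) :
    (1 + ρ) / 8 * (δ * Real.exp (-δ)) * ∑ x ∈ univ.filter (fun x : Fin n → Bool =>
      w ≤ Real.log (noise ρ f x) ∧ Real.log (noise ρ f x) < w + δ), wt ρ x y ≤
      2 * Real.sqrt ((1 + ρ) / (1 - ρ)) / Real.sqrt n + (2 + K) * (8 * (1 - ρ) / ((1 + ρ) * n) +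
        2 * (∑ x ∈ univ.filter (fun x : Fin n → Bool => w - s ≤ Real.log (noise ρ f x) ∧
          e * n < ((exc ρ f x y).card : ℝ)), wt ρ x y) + Real.exp (-s)) := by
  have hr : 0 < 1 - ρ := by linarith
  have hδ0 : 0 < δ := by rw [hδ]; exact Real.log_pos (by linarith)
  have hL0 : 0 < Real.log ((1 + ρ) / (1 - ρ)) := by
    apply Real.log_pos
    rw [lt_div_iff₀ hr]; linarith
  have hK0 : 0 < K := by rw [hK]; positivity
  have hn' : (0 : ℝ) < n := by exact_mod_cast hn
  obtain ⟨g0, g2, gm⟩ := g_all w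
  set W : (Fin n → Bool) → ℝ := fun x => Real.log (noise ρ f x) with hW
  set N : (Fin n → Bool) → ℝ := fun x => (hammingDist x y : ℝ) with hN
  set E : (Fin n → Bool) → ℝ := fun x => ((exc ρ f x y).card : ℝ) with hE
  set θ := δ * Real.exp (-δ) with hθ
  have hθ0 : 0 < θ := by positivity
  have hN0 : ∀ x, 0 ≤ N x := fun x => Nat.cast_nonneg _
  have hE0 : ∀ x, 0 ≤ E x := fun x => Nat.cast_nonneg _
  have hNn : ∀ x, N x ≤ n := by
    intro x
    have := hammingDist_le_card_fintype (x := x) (y := y)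
    simp only [Fintype.card_fin] at this
    exact Nat.cast_le.2 this
  have hEn : ∀ x, E x ≤ n := by
    intro x
    have := card_le_univ (exc ρ f x y)
    simp only [Fintype.card_fin] at this
    exact Nat.cast_le.2 this
  -- pointwise bound
  have key : ∀ x : Fin n → Bool, ∑ i ∈ univ.filter (fun i => x i = y i), (g w (W (Wi.flip x i)) - g w (W x)) +
      n * ((1 + ρ) / 8 * θ * (if w ≤ W x ∧ W x < w + δ then 1 else 0)) ≤
      n * (2 + K) * (2 * (if (n : ℝ) * (3 - ρ) / 4 < N x then 1 else 0) +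
        2 * (if w - s ≤ W x ∧ e * n < E x then 1 else 0) + Real.exp (-s)) := by
    intro x
    have hi := inner_le h0 h1 f hf hm y w x
    rw [← hδ, ← hK] at hi
    set D := g w (W x) - g w (W x - δ) with hD
    have hi' : ∑ i ∈ univ.filter (fun i => x i = y i), (g w (W (Wi.flip x i)) - g w (W x)) ≤
      (-(n - N x) + (1 + K) * E x) * D := hi
    have hD0 : 0 ≤ D := by
      have := gm (show W x - δ ≤ W x by linarith)
      linarith
    have hDG : D ≤ g w (W x) := by
      have := g0 (W x - δ)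
      linarith
    have hwin : θ * (if w ≤ W x ∧ W x < w + δ then 1 else 0) ≤ D := by
      split_ifs with h
      · rw [mul_one]; exact g_win w (W x) δ hδ0 h.1 h.2
      · rw [mul_zero]; exact hD0
    set I := (if w ≤ W x ∧ W x < w + δ then (1 : ℝ) else 0) with hI
    have hI0 : 0 ≤ I := by rw [hI]; split_ifs <;> norm_num
    have hes : 0 < Real.exp (-s) := Real.exp_pos _
    have hR0 : 0 ≤ 2 * (if (n : ℝ) * (3 - ρ) / 4 < N x then (1 : ℝ) else 0) +
        2 * (if w - s ≤ W x ∧ e * n < E x then (1 : ℝ) else 0) := by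
      split_ifs <;> norm_num
    have hw8 : (1 + ρ) / 8 * θ * I ≤ D := by
      have : (1 + ρ) / 8 * (θ * I) ≤ 1 * D :=
        mul_le_mul (by linarith) hwin (by positivity) (by norm_num)
      linarith [mul_assoc ((1 + ρ) / 8) θ I]
    by_cases hgood : N x ≤ n * (3 - ρ) / 4 ∧ E x ≤ e * n
    · -- good
      have h2 : (1 + K) * E x ≤ (1 + ρ) / 8 * n := by
        calc (1 + K) * E x ≤ (1 + K) * (e * n) := by
              apply mul_le_mul_of_nonneg_left hgood.2; positivity
          _ = ((1 + K) * e) * n := by ring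
          _ ≤ (1 + ρ) / 8 * n := by apply mul_le_mul_of_nonneg_right heK; positivity
      have h3 : -(n - N x) + (1 + K) * E x ≤ -((1 + ρ) / 8 * n) := by
        have := hgood.1
        linarith
      have h4 : (-(n - N x) + (1 + K) * E x) * D ≤ -((1 + ρ) / 8 * n) * D :=
        mul_le_mul_of_nonneg_right h3 hD0
      have h5 : n * ((1 + ρ) / 8 * θ * I) ≤ (1 + ρ) / 8 * n * D := by
        have : (1 + ρ) / 8 * n * (θ * I) ≤ (1 + ρ) / 8 * n * D :=
          mul_le_mul_of_nonneg_left hwin (by positivity)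
        linarith
      have h6 : 0 ≤ n * (2 + K) * (2 * (if (n : ℝ) * (3 - ρ) / 4 < N x then (1 : ℝ) else 0) +
        2 * (if w - s ≤ W x ∧ e * n < E x then (1 : ℝ) else 0) + Real.exp (-s)) := by
        positivity
      linarith
    · -- bad
      have h2 : (-(n - N x) + (1 + K) * E x) * D ≤ n * (1 + K) * D := by
        apply mul_le_mul_of_nonneg_right _ hD0
        have h3 : (1 + K) * E x ≤ (1 + K) * n := by
          apply mul_le_mul_of_nonneg_left (hEn x); positivity
        have := hNn x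
        linarith
      have h3 : n * ((1 + ρ) / 8 * θ * I) ≤ n * D :=
        mul_le_mul_of_nonneg_left hw8 hn'.le
      have h4 : n * (1 + K) * D + n * D ≤ n * (2 + K) * g w (W x) := by
        have : n * (2 + K) * D ≤ n * (2 + K) * g w (W x) :=
          mul_le_mul_of_nonneg_left hDG (by positivity)
        linarith
      have h5 : g w (W x) ≤ 2 * (if (n : ℝ) * (3 - ρ) / 4 < N x then (1 : ℝ) else 0) +
        2 * (if w - s ≤ W x ∧ e * n < E x then (1 : ℝ) else 0) + Real.exp (-s) := by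
        by_cases hA : (n : ℝ) * (3 - ρ) / 4 < N x
        · rw [if_pos hA]
          have := g2 (W x)
          have h6 : 0 ≤ 2 * (if w - s ≤ W x ∧ e * n < E x then (1 : ℝ) else 0) := by
            split_ifs <;> norm_num
          linarith
        · have hB : e * n < E x := by
            by_contra hB
            exact hgood ⟨not_lt.1 hA, not_lt.1 hB⟩
          rw [if_neg hA]
          by_cases hC : w - s ≤ W x
          · rw [if_pos ⟨hC, hB⟩]
            have := g2 (W x)
            linarith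
          · rw [if_neg (fun h => hC h.1)]
            have := g_far w (W x) s (by push Not at hC; linarith) hs
            linarith
      have h6 : n * (2 + K) * g w (W x) ≤ n * (2 + K) *
          (2 * (if (n : ℝ) * (3 - ρ) / 4 < N x then (1 : ℝ) else 0) +
        2 * (if w - s ≤ W x ∧ e * n < E x then (1 : ℝ) else 0) + Real.exp (-s)) :=
        mul_le_mul_of_nonneg_left h5 (by positivity)
      linarith
  have hwt := fun x => wt_nonneg h0 h1 x y
  have hst := star h0 h1 y (fun x => g w (W x)) (fun x => g0 _) (fun x => g2 _)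
  have hsum := sum_le_sum (s := univ) fun x (_ : x ∈ univ) =>
    mul_le_mul_of_nonneg_left (key x) (hwt x)
  have hone : ∑ x, wt ρ x y = 1 := wt_sum y
  have hch := cheb h0 h1 hn y
  set PW := ∑ x ∈ univ.filter (fun x : Fin n → Bool =>
      w ≤ Real.log (noise ρ f x) ∧ Real.log (noise ρ f x) < w + δ), wt ρ x y with hPW
  set PN := ∑ x ∈ univ.filter (fun x : Fin n → Bool =>
      (n : ℝ) * (3 - ρ) / 4 < (hammingDist x y : ℝ)), wt ρ x y with hPN
  set PE := ∑ x ∈ univ.filter (fun x : Fin n → Bool => w - s ≤ Real.log (noise ρ f x) ∧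
          e * n < ((exc ρ f x y).card : ℝ)), wt ρ x y with hPE
  have hL : ∑ x, wt ρ x y * (∑ i ∈ univ.filter (fun i => x i = y i),
      (g w (W (Wi.flip x i)) - g w (W x)) +
      n * ((1 + ρ) / 8 * θ * (if w ≤ W x ∧ W x < w + δ then 1 else 0))) =
      (∑ x, wt ρ x y * ∑ i ∈ univ.filter (fun i => x i = y i),
        (g w (W (Wi.flip x i)) - g w (W x))) + n * ((1 + ρ) / 8 * θ) * PW := by
    rw [hPW, sum_filter, mul_sum, ← sum_add_distrib]
    apply sum_congr rfl
    intro x _
    have : (if w ≤ Real.log (noise ρ f x) ∧ Real.log (noise ρ f x) < w + δ then wt ρ x y else 0) =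
      wt ρ x y * (if w ≤ W x ∧ W x < w + δ then 1 else 0) := by
      rw [hW]; split_ifs <;> simp
    rw [this]
    ring
  have hR : ∑ x, wt ρ x y * (n * (2 + K) * (2 * (if (n : ℝ) * (3 - ρ) / 4 < N x then 1 else 0) +
        2 * (if w - s ≤ W x ∧ e * n < E x then 1 else 0) + Real.exp (-s))) =
      n * (2 + K) * (2 * PN + 2 * PE + Real.exp (-s)) := by
    have e1 : PN = ∑ x, wt ρ x y * (if (n : ℝ) * (3 - ρ) / 4 < N x then 1 else 0) := by
      rw [hPN, sum_filter]
      exact sum_congr rfl fun x _ => by rw [hN]; split_ifs <;> simp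
    have e2 : PE = ∑ x, wt ρ x y * (if w - s ≤ W x ∧ e * n < E x then 1 else 0) := by
      rw [hPE, sum_filter]
      exact sum_congr rfl fun x _ => by rw [hW, hE]; split_ifs <;> simp
    have e3 : Real.exp (-s) = ∑ x, wt ρ x y * Real.exp (-s) := by
      rw [← sum_mul, hone, one_mul]
    conv_rhs => rw [e1, e2, e3]
    rw [mul_sum, mul_sum, ← sum_add_distrib, ← sum_add_distrib, mul_sum]
    apply sum_congr rfl
    intro x _
    ring
  rw [hL, hR] at hsum
  have hst' : -(2 * Real.sqrt (n * ((1 + ρ) / (1 - ρ)))) ≤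
      ∑ x, wt ρ x y * ∑ i ∈ univ.filter (fun i => x i = y i),
        (g w (W (Wi.flip x i)) - g w (W x)) := hst
  have hsq : 2 * Real.sqrt (n * ((1 + ρ) / (1 - ρ))) =
      n * (2 * Real.sqrt ((1 + ρ) / (1 - ρ)) / Real.sqrt n) := by
    rw [Real.sqrt_mul hn'.le]
    have h1 : Real.sqrt n ≠ 0 := (Real.sqrt_pos.2 hn').ne'
    have h2 : (n : ℝ) = Real.sqrt n * Real.sqrt n := (Real.mul_self_sqrt hn'.le).symm
    conv_rhs => rw [h2]
    field_simp
    rw [Real.sq_sqrt (by positivity)]
  apply le_of_mul_le_mul_left _ hn'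
  have hPN' : 2 * PN ≤ 8 * (1 - ρ) / ((1 + ρ) * n) := by
    calc 2 * PN ≤ 2 * (4 * (1 - ρ) / ((1 + ρ) * n)) := by linarith
      _ = 8 * (1 - ρ) / ((1 + ρ) * n) := by ring
  have hfin : n * (2 + K) * (2 * PN + 2 * PE + Real.exp (-s)) ≤
      n * (2 + K) * (8 * (1 - ρ) / ((1 + ρ) * n) + 2 * PE + Real.exp (-s)) := by
    apply mul_le_mul_of_nonneg_left _ (by positivity)
    linarith
  rw [hsq] at hst'
  calc n * ((1 + ρ) / 8 * θ * PW) = n * ((1 + ρ) / 8 * θ) * PW := by ring
    _ ≤ n * (2 * Real.sqrt ((1 + ρ) / (1 - ρ)) / Real.sqrt n) +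
        n * (2 + K) * (8 * (1 - ρ) / ((1 + ρ) * n) + 2 * PE + Real.exp (-s)) := by linarith
    _ = _ := by ring

theorem avg {ρ : ℝ} {n : ℕ} (f : (Fin n → Bool) → ℝ) (S : Finset (Fin n → Bool)) :
    ∑ y, f y * ∑ x ∈ S, wt ρ x y = ∑ x ∈ S, noise ρ f x := by
  unfold noise
  simp only [mul_sum]
  rw [sum_comm]
  exact sum_congr rfl fun x _ => sum_congr rfl fun y _ => mul_comm _ _

theorem exp_le {a : ℝ} (ha : 0 < a) {n : ℕ} (hn : 0 < n) :
    Real.exp (-(a * n)) ≤ (1 / a) / Real.sqrt n := by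
  have hn' : (0 : ℝ) < n := by exact_mod_cast hn
  have h1 : a * n ≤ Real.exp (a * n) := by
    have := Real.add_one_le_exp (a * n)
    linarith
  have h2 : Real.sqrt n ≤ n := by
    rw [Real.sqrt_le_left hn'.le]
    have : (1 : ℝ) ≤ n := by exact_mod_cast hn
    nlinarith
  have h3 : 0 < Real.sqrt n := Real.sqrt_pos.2 hn'
  rw [Real.exp_neg, div_div, ← one_div]
  apply one_div_le_one_div_of_le (by positivity)
  calc a * Real.sqrt n ≤ a * n := mul_le_mul_of_nonneg_left h2 ha.le
    _ ≤ _ := h1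

open scoped Classical in
/-- total mass of a window -/
theorem window {ρ : ℝ} (h0 : 0 < ρ) (h1 : ρ < 1) : ∃ η > 0, ∃ C > 0, ∀ n : ℕ, 0 < n →
    ∀ f : (Fin n → Bool) → ℝ, (∀ x, 0 ≤ f x) → ∑ x, f x = 2 ^ n → ∀ w : ℝ,
    n * (kap ρ - η) ≤ w →
    ∑ x ∈ univ.filter (fun x : Fin n → Bool => w ≤ Real.log (noise ρ f x) ∧
      Real.log (noise ρ f x) < w + Real.log (1 + ρ)), noise ρ f x ≤ 2 ^ n * (C / Real.sqrt n) := by
  have hr : 0 < 1 - ρ := by linarith
  set δ := Real.log (1 + ρ) with hδ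
  have hδ0 : 0 < δ := Real.log_pos (by linarith)
  set L := Real.log ((1 + ρ) / (1 - ρ)) with hL
  have hL0 : 0 < L := by
    apply Real.log_pos
    rw [lt_div_iff₀ hr]; linarith
  set K := L * Real.exp (L + δ) / δ with hK
  have hK0 : 0 < K := by positivity
  set e := (1 + ρ) / (8 * (1 + K)) with he
  have he0 : 0 < e := by positivity
  have heK : (1 + K) * e ≤ (1 + ρ) / 8 := by
    rw [he]
    apply le_of_eq
    field_simp
  set ε := e * (1 - ρ) / 8 with hε
  have hε0 : 0 < ε := by positivity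
  have hρ2 : 0 < 1 - ρ ^ 2 := by nlinarith
  have hlog : Real.log (1 - ρ ^ 2) < 0 := Real.log_neg hρ2 (by nlinarith)
  set η := -(ε / 8) * Real.log (1 - ρ ^ 2) with hη
  have hη0 : 0 < η := by
    rw [hη]
    have : 0 < ε / 8 * (-Real.log (1 - ρ ^ 2)) := mul_pos (by positivity) (by linarith)
    linarith
  set θ := δ * Real.exp (-δ) with hθ
  have hθ0 : 0 < θ := by positivity
  set B := 2 * Real.sqrt ((1 + ρ) / (1 - ρ)) + (2 + K) * (8 * (1 - ρ) / (1 + ρ) +
    2 * (1 / ε * (1 / η + 2 * (1 / (2 * η ^ 2 / L ^ 2)))) + 1 / η) with hB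
  have hB0 : 0 < B := by positivity
  refine ⟨η, hη0, B / ((1 + ρ) / 8 * θ), by positivity, ?_⟩
  intro n hn f hf hm w hw
  have hn' : (0 : ℝ) < n := by exact_mod_cast hn
  have hsn : 0 < Real.sqrt n := Real.sqrt_pos.2 hn'
  have h2n : (0 : ℝ) < 2 ^ n := by positivity
  have hy := fun y => winy h0 h1 hn f hf hm y w (η * n) e δ K (by positivity) he0 hδ hK heK
  have hsum := sum_le_sum (s := univ) fun y (_ : y ∈ univ) =>
    mul_le_mul_of_nonneg_left (hy y) (hf y)
  set SW := univ.filter (fun x : Fin n → Bool => w ≤ Real.log (noise ρ f x) ∧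
      Real.log (noise ρ f x) < w + δ) with hSW
  have hLs : ∑ y, f y * ((1 + ρ) / 8 * θ * ∑ x ∈ SW, wt ρ x y) =
      (1 + ρ) / 8 * θ * ∑ x ∈ SW, noise ρ f x := by
    rw [← avg f SW, mul_sum]
    exact sum_congr rfl fun y _ => by ring
  -- the exceptional part
  have hpair : ∑ y, f y * ∑ x ∈ univ.filter (fun x : Fin n → Bool =>
      w - η * n ≤ Real.log (noise ρ f x) ∧ e * n < ((exc ρ f x y).card : ℝ)), wt ρ x y ≤
      1 / ε * (2 ^ n * ((1 / η + 2 * (1 / (2 * η ^ 2 / L ^ 2))) / Real.sqrt n)) := by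
    have hp := pair h0 h1 f hf hm η ε hη0 hε0
    have e1 : Real.exp (3 * η * n) * (1 - ρ ^ 2) ^ (ε * n / 2) = Real.exp (-(η * n)) := by
      rw [Real.rpow_def_of_pos hρ2, ← Real.exp_add]
      congr 1
      have : Real.log (1 - ρ ^ 2) * (ε * n / 2) = -(4 * η * n) := by rw [hη]; ring
      rw [this]
      ring
    have e2 : Real.exp (-(2 * η ^ 2 * n / L ^ 2)) ≤ 1 / (2 * η ^ 2 / L ^ 2) / Real.sqrt n := by
      have := exp_le (a := 2 * η ^ 2 / L ^ 2) (by positivity) hn
      calc Real.exp (-(2 * η ^ 2 * n / L ^ 2)) = Real.exp (-(2 * η ^ 2 / L ^ 2 * n)) := by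
            congr 1; ring
        _ ≤ _ := this
    have e3 := exp_le hη0 hn
    rw [e1] at hp
    have hp2 : ∑ y, f y * ∑ x ∈ univ.filter (fun x : Fin n → Bool =>
      Real.exp (n * (kap ρ - 2 * η)) ≤ noise ρ f x), wt ρ x y * (off ρ f (ε * n) x y / noise ρ f x) ≤
      2 ^ n * ((1 / η + 2 * (1 / (2 * η ^ 2 / L ^ 2))) / Real.sqrt n) := by
      refine hp.trans ?_
      apply mul_le_mul_of_nonneg_left _ h2n.le
      calc Real.exp (-(η * n)) + 2 * Real.exp (-(2 * η ^ 2 * n / L ^ 2)) ≤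
            1 / η / Real.sqrt n + 2 * (1 / (2 * η ^ 2 / L ^ 2) / Real.sqrt n) := by linarith
        _ = _ := by ring
    refine le_trans ?_ (mul_le_mul_of_nonneg_left hp2 (by positivity))
    rw [mul_sum]
    apply sum_le_sum
    intro y _
    rw [mul_left_comm]
    apply mul_le_mul_of_nonneg_left _ (hf y)
    rw [mul_sum, sum_filter, sum_filter]
    apply sum_le_sum
    intro x _
    have hnx := noise_pos h0 h1 f hf hm x
    have hoff0 : 0 ≤ off ρ f (ε * n) x y := by
      unfold off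
      exact sum_nonneg fun z _ => mul_nonneg (wt_nonneg h0 h1 x z) (hf z)
    have hwt := wt_nonneg h0 h1 x y
    by_cases hx : w - η * n ≤ Real.log (noise ρ f x) ∧ e * n < ((exc ρ f x y).card : ℝ)
    · rw [if_pos hx]
      have h3 : Real.exp (n * (kap ρ - 2 * η)) ≤ noise ρ f x := by
        rw [← Real.exp_log hnx]
        apply Real.exp_le_exp.2
        have := hx.1
        nlinarith
      rw [if_pos h3]
      have h4 := off_ge h0 h1 hn f hf x y e he0 hx.2
      rw [← hε] at h4
      have h5 : 1 ≤ 1 / ε * (off ρ f (ε * n) x y / noise ρ f x) := by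
        have h6 : ε ≤ off ρ f (ε * n) x y / noise ρ f x := by
          rw [le_div_iff₀ hnx]; exact h4
        calc (1 : ℝ) = 1 / ε * ε := by field_simp
          _ ≤ _ := mul_le_mul_of_nonneg_left h6 (by positivity)
      calc wt ρ x y = wt ρ x y * 1 := (mul_one _).symm
        _ ≤ wt ρ x y * (1 / ε * (off ρ f (ε * n) x y / noise ρ f x)) :=
            mul_le_mul_of_nonneg_left h5 hwt
        _ = _ := by ring
    · rw [if_neg hx]
      split_ifs
      · positivity
      · exact le_rfl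
  have hRs : ∑ y, f y * (2 * Real.sqrt ((1 + ρ) / (1 - ρ)) / Real.sqrt n + (2 + K) *
      (8 * (1 - ρ) / ((1 + ρ) * n) +
        2 * (∑ x ∈ univ.filter (fun x : Fin n → Bool => w - η * n ≤ Real.log (noise ρ f x) ∧
          e * n < ((exc ρ f x y).card : ℝ)), wt ρ x y) + Real.exp (-(η * n)))) =
      2 ^ n * (2 * Real.sqrt ((1 + ρ) / (1 - ρ)) / Real.sqrt n + (2 + K) *
        (8 * (1 - ρ) / ((1 + ρ) * n) + Real.exp (-(η * n)))) + (2 + K) * 2 *
        ∑ y, f y * ∑ x ∈ univ.filter (fun x : Fin n → Bool =>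
          w - η * n ≤ Real.log (noise ρ f x) ∧ e * n < ((exc ρ f x y).card : ℝ)), wt ρ x y := by
    rw [← hm, sum_mul, mul_sum, ← sum_add_distrib]
    exact sum_congr rfl fun y _ => by ring
  rw [hLs, hRs] at hsum
  have e3 := exp_le hη0 hn
  have e4 : 8 * (1 - ρ) / ((1 + ρ) * n) ≤ 8 * (1 - ρ) / (1 + ρ) / Real.sqrt n := by
    rw [div_div]
    apply div_le_div_of_nonneg_left (by positivity) (by positivity)
    apply mul_le_mul_of_nonneg_left _ (by positivity)
    rw [Real.sqrt_le_left hn'.le]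
    have : (1 : ℝ) ≤ n := by exact_mod_cast hn
    nlinarith
  have hmain : (1 + ρ) / 8 * θ * ∑ x ∈ SW, noise ρ f x ≤ 2 ^ n * (B / Real.sqrt n) := by
    refine hsum.trans ?_
    have e5 : 2 ^ n * (2 * Real.sqrt ((1 + ρ) / (1 - ρ)) / Real.sqrt n + (2 + K) *
        (8 * (1 - ρ) / ((1 + ρ) * n) + Real.exp (-(η * n)))) ≤
        2 ^ n * (2 * Real.sqrt ((1 + ρ) / (1 - ρ)) / Real.sqrt n + (2 + K) *
        (8 * (1 - ρ) / (1 + ρ) / Real.sqrt n + 1 / η / Real.sqrt n)) := by
      apply mul_le_mul_of_nonneg_left _ h2n.le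
      have : (2 + K) * (8 * (1 - ρ) / ((1 + ρ) * n) + Real.exp (-(η * n))) ≤
        (2 + K) * (8 * (1 - ρ) / (1 + ρ) / Real.sqrt n + 1 / η / Real.sqrt n) := by
        apply mul_le_mul_of_nonneg_left _ (by positivity)
        linarith
      linarith
    have e6 := mul_le_mul_of_nonneg_left hpair (show 0 ≤ (2 + K) * 2 by positivity)
    refine (add_le_add e5 e6).trans (le_of_eq ?_)
    rw [hB]
    ring
  have hA : 0 < (1 + ρ) / 8 * θ := by positivity
  calc ∑ x ∈ SW, noise ρ f x = ((1 + ρ) / 8 * θ * ∑ x ∈ SW, noise ρ f x) / ((1 + ρ) / 8 * θ) := by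
        field_simp
    _ ≤ (2 ^ n * (B / Real.sqrt n)) / ((1 + ρ) / 8 * θ) := by
        apply div_le_div_of_nonneg_right hmain hA.le
    _ = _ := by ring

open scoped Classical in
/-- **Sharp bound.** -/
theorem sharp {ρ : ℝ} (h0 : 0 < ρ) (h1 : ρ < 1) : ∃ η > 0, ∃ C > 0, ∀ n : ℕ, 0 < n →
    ∀ f : (Fin n → Bool) → ℝ, (∀ x, 0 ≤ f x) → ∑ x, f x = 2 ^ n → ∀ t : ℝ, 0 < t →
    n * (kap ρ - η) ≤ Real.log t →
    ((univ.filter fun x : Fin n → Bool => t ≤ noise ρ f x).card : ℝ) / 2 ^ n ≤
      C / (t * Real.sqrt n) := by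
  obtain ⟨η, hη, C, hC, H⟩ := window h0 h1
  refine ⟨η, hη, C * ((1 + ρ) / ρ), by positivity, ?_⟩
  intro n hn f hf hm t ht hlt
  have hn' : (0 : ℝ) < n := by exact_mod_cast hn
  have hsn : 0 < Real.sqrt n := Real.sqrt_pos.2 hn'
  have h2n : (0 : ℝ) < 2 ^ n := by positivity
  set δ := Real.log (1 + ρ) with hδ
  have hδ0 : 0 < δ := Real.log_pos (by linarith)
  set W : (Fin n → Bool) → ℝ := fun x => Real.log (noise ρ f x) with hW
  set m : (Fin n → Bool) → ℕ := fun x => ⌊(W x - Real.log t) / δ⌋₊ with hmdef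
  set M := (univ.sup m) + 1 with hM
  set SW : ℕ → Finset (Fin n → Bool) := fun j => univ.filter (fun x : Fin n → Bool =>
    Real.log t + j * δ ≤ Real.log (noise ρ f x) ∧
      Real.log (noise ρ f x) < (Real.log t + j * δ) + δ) with hSW
  have hcov : (univ.filter fun x : Fin n → Bool => t ≤ noise ρ f x) ⊆ (range M).biUnion SW := by
    intro x hx
    have hxt : t ≤ noise ρ f x := (mem_filter.1 hx).2
    have h3 : 0 ≤ (W x - Real.log t) / δ := by
      apply div_nonneg _ hδ0.le
      have := Real.log_le_log ht hxt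
      linarith
    rw [mem_biUnion]
    refine ⟨m x, ?_, ?_⟩
    · rw [mem_range, hM]
      exact Nat.lt_succ_of_le (le_sup (f := m) (mem_univ x))
    · rw [hSW]
      refine mem_filter.2 ⟨mem_univ _, ?_, ?_⟩
      · have := Nat.floor_le h3
        rw [le_div_iff₀ hδ0] at this
        show Real.log t + (m x : ℝ) * δ ≤ W x
        have h4 : ((m x : ℕ) : ℝ) * δ ≤ W x - Real.log t := this
        linarith
      · have := Nat.lt_floor_add_one ((W x - Real.log t) / δ)
        rw [div_lt_iff₀ hδ0] at this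
        show W x < (Real.log t + (m x : ℝ) * δ) + δ
        have h4 : W x - Real.log t < ((m x : ℕ) : ℝ) * δ + δ := by
          calc W x - Real.log t < (((m x : ℕ) : ℝ) + 1) * δ := this
            _ = _ := by ring
        linarith
  have hone : ∀ j : ℕ, ((SW j).card : ℝ) ≤ 2 ^ n * (C / Real.sqrt n) / t * (1 / (1 + ρ)) ^ j := by
    intro j
    have h3 := H n hn f hf hm (Real.log t + j * δ) (by
      have : 0 ≤ (j : ℝ) * δ := by positivity
      linarith)
    have h4 : (t * (1 + ρ) ^ j) * ((SW j).card : ℝ) ≤ ∑ x ∈ SW j, noise ρ f x := by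
      rw [mul_comm, ← nsmul_eq_mul]
      apply card_nsmul_le_sum
      intro x hx
      have hx' := (mem_filter.1 hx).2.1
      have hnx := noise_pos h0 h1 f hf hm x
      rw [← Real.exp_log hnx]
      have : t * (1 + ρ) ^ j = Real.exp (Real.log t + j * δ) := by
        rw [Real.exp_add, Real.exp_log ht, mul_comm (j : ℝ) δ, Real.exp_mul, hδ,
          Real.exp_log (by positivity), Real.rpow_natCast]
      rw [this]
      exact Real.exp_le_exp.2 hx'
    have h5 : (t * (1 + ρ) ^ j) * ((SW j).card : ℝ) ≤ 2 ^ n * (C / Real.sqrt n) := h4.trans h3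
    have h6 : 0 < t * (1 + ρ) ^ j := by positivity
    calc ((SW j).card : ℝ) = (t * (1 + ρ) ^ j) * ((SW j).card : ℝ) / (t * (1 + ρ) ^ j) := by
          field_simp
      _ ≤ 2 ^ n * (C / Real.sqrt n) / (t * (1 + ρ) ^ j) := div_le_div_of_nonneg_right h5 h6.le
      _ = _ := by
          rw [one_div, inv_pow]
          field_simp
  have hcard : ((univ.filter fun x : Fin n → Bool => t ≤ noise ρ f x).card : ℝ) ≤
      ∑ j ∈ range M, 2 ^ n * (C / Real.sqrt n) / t * (1 / (1 + ρ)) ^ j := by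
    calc ((univ.filter fun x : Fin n → Bool => t ≤ noise ρ f x).card : ℝ) ≤
          (((range M).biUnion SW).card : ℝ) := by exact_mod_cast card_le_card hcov
      _ ≤ ((∑ j ∈ range M, (SW j).card : ℕ) : ℝ) := by exact_mod_cast card_biUnion_le
      _ = ∑ j ∈ range M, ((SW j).card : ℝ) := by push_cast; rfl
      _ ≤ _ := sum_le_sum fun j _ => hone j
  have hgeo : ∑ j ∈ range M, (1 / (1 + ρ)) ^ j ≤ (1 + ρ) / ρ := by
    have hq0 : 0 ≤ 1 / (1 + ρ) := by positivity
    have hq1 : 1 / (1 + ρ) < 1 := by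
      rw [div_lt_one (by positivity)]; linarith
    have h3 := (summable_geometric_of_lt_one hq0 hq1).sum_le_tsum (range M)
      (fun j _ => by positivity)
    rw [tsum_geometric_of_lt_one hq0 hq1] at h3
    refine h3.trans (le_of_eq ?_)
    have : 1 - 1 / (1 + ρ) = ρ / (1 + ρ) := by field_simp; ring
    rw [this, inv_div]
  rw [div_le_iff₀ h2n]
  refine hcard.trans ?_
  rw [← mul_sum]
  calc 2 ^ n * (C / Real.sqrt n) / t * ∑ j ∈ range M, (1 / (1 + ρ)) ^ j ≤
        2 ^ n * (C / Real.sqrt n) / t * ((1 + ρ) / ρ) := by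
        apply mul_le_mul_of_nonneg_left hgeo
        positivity
    _ = _ := by
        field_simp

end Pool.Agent.H18Wi
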