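import Pool.Agent.H18Wi.Star

set_option autoImplicit false

open Finset

namespace Pool.Agent.H21Wi

open Pool.Agent.H63TC Pool.Agent.H63TC.Wi

theorem M_eq {ρ : ℝ} (h1 : ρ < 1) {n : ℕ} (x y : Fin n → Bool) :
    M ρ y x = 2 / (1 - ρ) * (hammingDist x y : ℝ) - n := by
  have hρ : (1 - ρ) ≠ 0 := by linarith
  have e : (hammingDist x y : ℝ) = ∑ i : Fin n, if x i ≠ y i then (1 : ℝ) else 0 := by
    unfold hammingDist
    rw [Finset.sum_boole]
  rw [e, Finset.mul_sum]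
  have e2 : (n : ℝ) = ∑ i : Fin n, (1 : ℝ) := by simp
  rw [e2, ← Finset.sum_sub_distrib]
  unfold M
  refine Finset.sum_congr rfl fun i _ => ?_
  by_cases h : x i = y i
  · rw [if_pos h, if_neg (not_not.2 h)]; ring
  · rw [if_neg h, if_pos h]
    field_simp
    ring

theorem cheb {ρ : ℝ} (h0 : 0 < ρ) (h1 : ρ < 1) {n : ℕ} (hn : 0 < n) (y : Fin n → Bool) :
    ∑ x ∈ univ.filter (fun x : Fin n → Bool =>
      (n : ℝ) * (3 - ρ) / 4 < (hammingDist x y : ℝ)), wt ρ x y ≤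
      4 * (1 - ρ) / ((1 + ρ) * n) := by
  have hρ : 0 < 1 - ρ := by linarith
  have hn' : (0 : ℝ) < n := by exact_mod_cast hn
  set r : ℝ := (1 + ρ) / (1 - ρ) with hr
  have hr0 : 0 < r := by positivity
  have key : ∀ x ∈ univ.filter (fun x : Fin n → Bool =>
      (n : ℝ) * (3 - ρ) / 4 < (hammingDist x y : ℝ)),
      wt ρ x y * ((n * r / 2) ^ 2) ≤ wt ρ x y * (M ρ y x * M ρ y x) := by
    intro x hx
    have hx' := (Finset.mem_filter.1 hx).2
    refine mul_le_mul_of_nonneg_left ?_ (wt_nonneg h0 h1 x y)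
    have hM : n * r / 2 ≤ M ρ y x := by
      rw [M_eq h1, hr]
      have h2 : 2 / (1 - ρ) * ((n : ℝ) * (3 - ρ) / 4) ≤ 2 / (1 - ρ) * (hammingDist x y : ℝ) :=
        mul_le_mul_of_nonneg_left hx'.le (by positivity)
      have h3 : 2 / (1 - ρ) * ((n : ℝ) * (3 - ρ) / 4) - n = n * ((1 + ρ) / (1 - ρ)) / 2 := by
        field_simp
        ring
      linarith
    have h0' : 0 ≤ n * r / 2 := by positivity
    nlinarith
  have hsum : (∑ x ∈ univ.filter (fun x : Fin n → Bool =>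
      (n : ℝ) * (3 - ρ) / 4 < (hammingDist x y : ℝ)), wt ρ x y) * ((n * r / 2) ^ 2) ≤ n * r := by
    rw [Finset.sum_mul]
    refine (Finset.sum_le_sum key).trans ?_
    rw [← M_sq h1 y]
    exact Finset.sum_le_sum_of_subset_of_nonneg (Finset.filter_subset _ _) fun x _ _ =>
      mul_nonneg (wt_nonneg h0 h1 x y) (mul_self_nonneg _)
  have hpos : 0 < (n * r / 2) ^ 2 := by positivity
  have e : 4 * (1 - ρ) / ((1 + ρ) * n) = n * r / ((n * r / 2) ^ 2) := by
    rw [hr]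
    have : (1 + ρ) ≠ 0 := by linarith
    have : (1 - ρ) ≠ 0 := by linarith
    field_simp
    norm_num
  rw [e, le_div_iff₀ hpos]
  exact hsum

end Pool.Agent.H21Wi
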