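import Pool.Agent.H63TC.DmMain
import Pool.Agent.H63TC.CdAll

set_option autoImplicit false

open Finset

namespace Pool.Agent.H63TC.Wi

/-- flip the bit `i` -/
def flip {n : ℕ} (x : Fin n → Bool) (i : Fin n) : Fin n → Bool := Function.update x i (!x i)

/-- a bounded increasing function with derivative `exp (-|u - w|)` -/
noncomputable def g (w u : ℝ) : ℝ := if u ≤ w then Real.exp (u - w) else 2 - Real.exp (-(u - w))

/-- the capacity -/
noncomputable def kap (ρ : ℝ) : ℝ :=
  ((1 + ρ) * Real.log (1 + ρ) + (1 - ρ) * Real.log (1 - ρ)) / 2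

/-- the bits `i` of `x` which agree with `y` and whose change does not decrease `T_ρ f` by the
factor `1 + ρ` -/
noncomputable def exc {n : ℕ} (ρ : ℝ) (f : (Fin n → Bool) → ℝ) (x y : Fin n → Bool) :
    Finset (Fin n) := by
  classical
  exact univ.filter fun i => x i = y i ∧ noise ρ f x < (1 + ρ) * noise ρ f (flip x i)

/-- the posterior weight of the points at distance more than `r` from `y` -/
noncomputable def off {n : ℕ} (ρ : ℝ) (f : (Fin n → Bool) → ℝ) (r : ℝ) (x y : Fin n → Bool) : ℝ := by
  classical
  exact ∑ z ∈ univ.filter (fun z : Fin n → Bool => r < (hammingDist z y : ℝ)), wt ρ x z * f z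

end Pool.Agent.H63TC.Wi
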