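import Pool.Agent.H18Wi.Defs

set_option autoImplicit false

open Finset

namespace Pool.Agent.H21Wi

open Pool.Agent.H63TC Pool.Agent.H63TC.Wi

theorem flip_self {n : ℕ} (x y : Fin n → Bool) (i : Fin n) : Wi.flip x i i = y i ↔ x i ≠ y i := by
  simp only [Wi.flip, Function.update_self]
  cases x i <;> cases y i <;> simp

theorem flip_ne {n : ℕ} (x : Fin n → Bool) {i j : Fin n} (h : j ≠ i) : Wi.flip x i j = x j := by
  simp only [Wi.flip]
  exact Function.update_of_ne h _ _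

theorem flip_flip {n : ℕ} (x : Fin n → Bool) (i : Fin n) : Wi.flip (Wi.flip x i) i = x := by
  ext j
  by_cases h : j = i
  · subst h
    simp [Wi.flip]
  · rw [flip_ne _ h, flip_ne _ h]

theorem sum_flip {n : ℕ} (i : Fin n) (F : (Fin n → Bool) → ℝ) :
    ∑ x, F (Wi.flip x i) = ∑ x, F x := by
  have hinv : Function.Involutive (fun x : Fin n → Bool => Wi.flip x i) := fun x => flip_flip x i
  exact Equiv.sum_comp hinv.toPerm F

theorem wt_flip {ρ : ℝ} (h1 : ρ < 1) {n : ℕ} (x y : Fin n → Bool) (i : Fin n) (h : x i ≠ y i) :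
    wt ρ (Wi.flip x i) y = (1 + ρ) / (1 - ρ) * wt ρ x y := by
  unfold wt
  rw [← Finset.mul_prod_erase univ _ (mem_univ i),
    ← Finset.mul_prod_erase univ (fun j => if x j = y j then (1 + ρ) / 2 else (1 - ρ) / 2)
      (mem_univ i)]
  have e : ∀ j ∈ univ.erase i, (if Wi.flip x i j = y j then (1 + ρ) / 2 else (1 - ρ) / 2) =
      (if x j = y j then (1 + ρ) / 2 else (1 - ρ) / 2) := by
    intro j hj
    rw [flip_ne x (Finset.ne_of_mem_erase hj)]
  rw [Finset.prod_congr rfl e, if_pos ((flip_self x y i).2 h), if_neg h]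
  have : (1 - ρ) ≠ 0 := by linarith
  field_simp

/-- the centred number of disagreements -/
noncomputable def M {n : ℕ} (ρ : ℝ) (y x : Fin n → Bool) : ℝ :=
  ∑ i, if x i = y i then (-1 : ℝ) else (1 + ρ) / (1 - ρ)

theorem stein {ρ : ℝ} (h1 : ρ < 1) {n : ℕ} (y : Fin n → Bool) (G : (Fin n → Bool) → ℝ) :
    ∑ x, wt ρ x y * ∑ i ∈ univ.filter (fun i => x i = y i), (G (Wi.flip x i) - G x) =
      ∑ x, wt ρ x y * (G x * M ρ y x) := by
  have hL : ∀ x : Fin n → Bool,
      wt ρ x y * ∑ i ∈ univ.filter (fun i => x i = y i), (G (Wi.flip x i) - G x) =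
      ∑ i, ((if x i = y i then wt ρ x y * G (Wi.flip x i) else 0) -
        (if x i = y i then wt ρ x y * G x else 0)) := by
    intro x
    rw [Finset.sum_filter, Finset.mul_sum]
    refine Finset.sum_congr rfl fun i _ => ?_
    split_ifs <;> ring
  have hR : ∀ x : Fin n → Bool, wt ρ x y * (G x * M ρ y x) =
      ∑ i, ((if x i = y i then 0 else (1 + ρ) / (1 - ρ) * wt ρ x y * G x) -
        (if x i = y i then wt ρ x y * G x else 0)) := by
    intro x
    unfold M
    rw [Finset.mul_sum, Finset.mul_sum]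
    refine Finset.sum_congr rfl fun i _ => ?_
    split_ifs <;> ring
  rw [Finset.sum_congr rfl fun x _ => hL x, Finset.sum_congr rfl fun x _ => hR x,
    Finset.sum_comm]
  symm
  rw [Finset.sum_comm]
  symm
  refine Finset.sum_congr rfl fun i _ => ?_
  rw [Finset.sum_sub_distrib, Finset.sum_sub_distrib]
  congr 1
  rw [← sum_flip i]
  refine Finset.sum_congr rfl fun x _ => ?_
  rw [flip_flip]
  by_cases h : x i = y i
  · rw [if_pos h, if_neg]
    rw [flip_self]
    exact fun hc => hc h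
  · rw [if_neg h, if_pos ((flip_self x y i).2 h), wt_flip h1 x y i h]

theorem wt_sum {ρ : ℝ} {n : ℕ} (y : Fin n → Bool) : ∑ x, wt ρ x y = 1 := by
  unfold wt
  have h := (Finset.prod_univ_sum (fun _ : Fin n => (univ : Finset Bool))
    (fun (i : Fin n) (b : Bool) => if b = y i then (1 + ρ) / 2 else (1 - ρ) / 2)).symm
  rw [Fintype.piFinset_univ] at h
  rw [h]
  refine Finset.prod_eq_one fun i _ => ?_
  rw [Fintype.sum_bool]
  cases y i <;> simp <;> ring

theorem wt_nonneg {ρ : ℝ} (h0 : 0 < ρ) (h1 : ρ < 1) {n : ℕ} (x y : Fin n → Bool) :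
    0 ≤ wt ρ x y := by
  unfold wt
  refine Finset.prod_nonneg fun i _ => ?_
  split_ifs <;> linarith

theorem M_mean {ρ : ℝ} (h1 : ρ < 1) {n : ℕ} (y : Fin n → Bool) :
    ∑ x, wt ρ x y * M ρ y x = 0 := by
  have := stein h1 y (fun _ => (1 : ℝ))
  simp only [sub_self, Finset.sum_const_zero, mul_zero, one_mul] at this
  exact this.symm

theorem M_sq {ρ : ℝ} (h1 : ρ < 1) {n : ℕ} (y : Fin n → Bool) :
    ∑ x, wt ρ x y * (M ρ y x * M ρ y x) = n * ((1 + ρ) / (1 - ρ)) := by
  rw [← stein h1 y (M ρ y)]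
  have e : ∀ x : Fin n → Bool,
      ∑ i ∈ univ.filter (fun i => x i = y i), (M ρ y (Wi.flip x i) - M ρ y x) =
      n * ((1 + ρ) / (1 - ρ)) - M ρ y x := by
    intro x
    have e1 : ∀ i ∈ univ.filter (fun i => x i = y i), M ρ y (Wi.flip x i) - M ρ y x =
        (1 + ρ) / (1 - ρ) + 1 := by
      intro i hi
      have hi' := (Finset.mem_filter.1 hi).2
      unfold M
      rw [← Finset.add_sum_erase univ _ (mem_univ i),
        ← Finset.add_sum_erase univ (fun i => if x i = y i then (-1 : ℝ) else (1 + ρ) / (1 - ρ))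
          (mem_univ i)]
      have e : ∀ j ∈ univ.erase i, (if Wi.flip x i j = y j then (-1 : ℝ)
          else (1 + ρ) / (1 - ρ)) =
          (if x j = y j then (-1 : ℝ) else (1 + ρ) / (1 - ρ)) := by
        intro j hj
        rw [flip_ne x (Finset.ne_of_mem_erase hj)]
      rw [Finset.sum_congr rfl e, if_pos hi', if_neg]
      · ring
      · rw [flip_self]
        exact fun hc => hc hi'
    rw [Finset.sum_congr rfl e1, Finset.sum_const, nsmul_eq_mul]
    have e2 : M ρ y x = ∑ i : Fin n, ((1 + ρ) / (1 - ρ) -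
        if x i = y i then ((1 + ρ) / (1 - ρ) + 1) else 0) := by
      unfold M
      refine Finset.sum_congr rfl fun i _ => ?_
      split_ifs <;> ring
    rw [e2, Finset.sum_sub_distrib, Finset.sum_const, Finset.card_univ, Fintype.card_fin,
      nsmul_eq_mul, ← Finset.sum_filter, Finset.sum_const, nsmul_eq_mul]
    ring
  rw [Finset.sum_congr rfl fun x _ => by rw [e x, mul_sub], Finset.sum_sub_distrib, M_mean h1,
    ← Finset.sum_mul, wt_sum]
  ring

theorem star {ρ : ℝ} (h0 : 0 < ρ) (h1 : ρ < 1) {n : ℕ} (y : Fin n → Bool)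
    (G : (Fin n → Bool) → ℝ) (hG0 : ∀ x, 0 ≤ G x) (hG2 : ∀ x, G x ≤ 2) :
    -(2 * Real.sqrt (n * ((1 + ρ) / (1 - ρ)))) ≤
      ∑ x, wt ρ x y * ∑ i ∈ univ.filter (fun i => x i = y i), (G (Wi.flip x i) - G x) := by
  rw [stein h1 y G]
  have hcs : (∑ x, wt ρ x y * |M ρ y x|) ^ 2 ≤
      (∑ x, wt ρ x y) * ∑ x, wt ρ x y * (M ρ y x * M ρ y x) := by
    refine Finset.sum_sq_le_sum_mul_sum_of_sq_le_mul univ (fun x _ => wt_nonneg h0 h1 x y)
      (fun x _ => mul_nonneg (wt_nonneg h0 h1 x y) (mul_self_nonneg _)) fun x _ => ?_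
    rw [mul_pow, sq_abs]
    exact le_of_eq (by ring)
  rw [wt_sum, M_sq h1, one_mul] at hcs
  have hle : ∑ x, wt ρ x y * |M ρ y x| ≤ Real.sqrt (n * ((1 + ρ) / (1 - ρ))) :=
    Real.le_sqrt_of_sq_le hcs
  have hlow : -(2 * ∑ x, wt ρ x y * |M ρ y x|) ≤ ∑ x, wt ρ x y * (G x * M ρ y x) := by
    rw [Finset.mul_sum, ← Finset.sum_neg_distrib]
    refine Finset.sum_le_sum fun x _ => ?_
    have hw := wt_nonneg h0 h1 x y
    have hg : -(2 * |M ρ y x|) ≤ G x * M ρ y x := by
      have a1 := neg_abs_le (M ρ y x)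
      have a2 := abs_nonneg (M ρ y x)
      nlinarith [hG0 x, hG2 x, mul_nonneg (hG0 x) (sub_nonneg.2 a1),
        mul_nonneg (sub_nonneg.2 (hG2 x)) a2]
    nlinarith [mul_le_mul_of_nonneg_left hg hw]
  linarith

end Pool.Agent.H21Wi
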